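import Pool.Agent.K3h34.HP.Stm

/-!
# Brick TWO of project HP (helper93): two points, systems modulo `p`
-/

set_option autoImplicit false

namespace Pool.Agent.K3h34.HP

open MvPolynomial

section

variable {R : Type} [CommRing R] {s n : ℕ} {e : Fin s → ℕ} {T : Fin s → Type}
  [∀ j, Fintype (T j)]

lemma two_eval (u : ∀ j, T j ≃ {u : Fin (n + 1) →₀ ℕ // ∑ i, u i = e j + 2})
    (c : (Σ j, T j) → R) (j : Fin s) (a : Fin (n + 1) → R) :
    MvPolynomial.eval a (frm u c j) =
      ∑ t : T j, c ⟨j, t⟩ * MvPolynomial.eval a (monomial (u j t : Fin (n + 1) →₀ ℕ) 1) := by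
  unfold frm
  rw [map_sum]
  refine Finset.sum_congr rfl fun t _ => ?_
  rw [eval_monomial, eval_monomial, one_mul]

lemma two_frm (u : ∀ j, T j ≃ {u : Fin (n + 1) →₀ ℕ // ∑ i, u i = e j + 2})
    (F : Fin s → MvPolynomial (Fin (n + 1)) R) (hF : ∀ j, (F j).IsHomogeneous (e j + 2))
    (j : Fin s) : frm u (fun z => (F z.1).coeff (u z.1 z.2 : Fin (n + 1) →₀ ℕ)) j = F j := by
  classical
  unfold frm
  ext m
  rw [coeff_sum]
  simp only [coeff_monomial]
  by_cases hm : ∑ i, m i = e j + 2
  · rw [Finset.sum_eq_single ((u j).symm ⟨m, hm⟩)]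
    · rw [Equiv.apply_symm_apply, if_pos rfl]
    · intro t _ ht
      rw [if_neg]
      intro h
      apply ht
      rw [Equiv.eq_symm_apply]
      exact Subtype.ext h
    · intro h
      exact absurd (Finset.mem_univ _) h
  · rw [Finset.sum_eq_zero]
    · symm
      by_contra h
      have h1 := hF j h
      apply hm
      rw [← h1]
      simp [Finsupp.weight_apply, Finsupp.sum_fintype]
    · intro t _
      rw [if_neg]
      intro h
      apply hm
      rw [← h]
      exact (u j t).2

end

/-- a linear form which is `1` at `a` and `0` at `b` -/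
lemma two_lin {p n : ℕ} [Fact p.Prime] {a b : Fin (n + 1) → ZMod p}
    (h : ∀ k : ZMod p, a ≠ k • b) : ∃ l : Fin (n + 1) → ZMod p,
      ∑ i, l i * a i = 1 ∧ ∑ i, l i * b i = 0 := by
  have h1 : a ∉ Submodule.span (ZMod p) {b} := by
    intro hm
    obtain ⟨k, hk⟩ := Submodule.mem_span_singleton.1 hm
    exact h k hk.symm
  obtain ⟨f, hf, hf2⟩ := Submodule.exists_le_ker_of_notMem h1
  have hb : f b = 0 := hf2 (Submodule.mem_span_singleton_self b)
  have hx : ∀ x : Fin (n + 1) → ZMod p, f x = ∑ i, f (Pi.single i 1) * x i := by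
    intro x
    conv_lhs => rw [← Finset.univ_sum_single x, map_sum]
    refine Finset.sum_congr rfl fun i _ => ?_
    have : (Pi.single i (x i) : Fin (n + 1) → ZMod p) = x i • Pi.single i 1 := by
      rw [← Pi.single_smul, smul_eq_mul, mul_one]
    rw [this, map_smul, smul_eq_mul, mul_comm]
  refine ⟨fun i => (f a)⁻¹ * f (Pi.single i 1), ?_, ?_⟩
  · simp only [mul_assoc]
    rw [← Finset.mul_sum, ← hx, inv_mul_cancel₀ hf]
  · simp only [mul_assoc]
    rw [← Finset.mul_sum, ← hx, hb, mul_zero]

theorem t_TWO : S_TWO := by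
  classical
  intro s n e T _ u p _ a b ha hb
  have hab : ∀ k : ZMod p, a ≠ k • b := by
    intro k hk
    by_cases hk0 : k = 0
    · rw [hk0, zero_smul] at hk
      exact ha hk
    · apply hb k⁻¹
      rw [hk, smul_smul, inv_mul_cancel₀ hk0, one_smul]
  obtain ⟨l1, h11, h12⟩ := two_lin hab
  obtain ⟨l2, h21, h22⟩ := two_lin hb
  let φ : ((Σ j, T j) → ZMod p) →+ (Fin s → ZMod p) × (Fin s → ZMod p) :=
    AddMonoidHom.mk' (fun c => (fun j => MvPolynomial.eval a (frm u c j),
      fun j => MvPolynomial.eval b (frm u c j))) (by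
      intro c c'
      refine Prod.ext ?_ ?_
      · funext j
        show MvPolynomial.eval a (frm u (c + c') j) =
          MvPolynomial.eval a (frm u c j) + MvPolynomial.eval a (frm u c' j)
        rw [two_eval, two_eval, two_eval, ← Finset.sum_add_distrib]
        exact Finset.sum_congr rfl fun t _ => add_mul _ _ _
      · funext j
        show MvPolynomial.eval b (frm u (c + c') j) =
          MvPolynomial.eval b (frm u c j) + MvPolynomial.eval b (frm u c' j)
        rw [two_eval, two_eval, two_eval, ← Finset.sum_add_distrib]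
        exact Finset.sum_congr rfl fun t _ => add_mul _ _ _)
  have hlin : ∀ l : Fin (n + 1) → ZMod p, ∀ d : ℕ,
      ((∑ i, C (l i) * X i : MvPolynomial (Fin (n + 1)) (ZMod p)) ^ d).IsHomogeneous d := by
    intro l d
    have h1 : (∑ i, C (l i) * X i : MvPolynomial (Fin (n + 1)) (ZMod p)).IsHomogeneous 1 := by
      refine IsHomogeneous.sum _ _ _ fun i _ => ?_
      have := (isHomogeneous_C (Fin (n + 1)) (l i)).mul (isHomogeneous_X (ZMod p) i)
      rwa [zero_add] at this
    have h2 := h1.pow d
    rwa [one_mul] at h2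
  have hsurj : Function.Surjective φ := by
    rintro ⟨y, z⟩
    let F : Fin s → MvPolynomial (Fin (n + 1)) (ZMod p) := fun j =>
      C (y j) * (∑ i, C (l1 i) * X i) ^ (e j + 2) + C (z j) * (∑ i, C (l2 i) * X i) ^ (e j + 2)
    have hF : ∀ j, (F j).IsHomogeneous (e j + 2) := by
      intro j
      refine IsHomogeneous.add ?_ ?_
      · have := (isHomogeneous_C (Fin (n + 1)) (y j)).mul (hlin l1 (e j + 2))
        rwa [zero_add] at this
      · have := (isHomogeneous_C (Fin (n + 1)) (z j)).mul (hlin l2 (e j + 2))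
        rwa [zero_add] at this
    refine ⟨fun z => (F z.1).coeff (u z.1 z.2 : Fin (n + 1) →₀ ℕ), ?_⟩
    refine Prod.ext ?_ ?_
    · funext j
      show MvPolynomial.eval a (frm u (fun z => (F z.1).coeff (u z.1 z.2 : Fin (n + 1) →₀ ℕ)) j) =
        y j
      rw [two_frm u F hF]
      simp only [F, map_add, map_mul, map_pow, map_sum, eval_C, eval_X]
      rw [h11, h22, one_pow, mul_one, zero_pow (by omega), mul_zero, add_zero]
    · funext j
      show MvPolynomial.eval b (frm u (fun z => (F z.1).coeff (u z.1 z.2 : Fin (n + 1) →₀ ℕ)) j) =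
        z j
      rw [two_frm u F hF]
      simp only [F, map_add, map_mul, map_pow, map_sum, eval_C, eval_X]
      rw [h12, h21, one_pow, mul_one, zero_pow (by omega), mul_zero, zero_add]
  have hset : ({c : (Σ j, T j) → ZMod p | ∀ j, MvPolynomial.eval a (frm u c j) = 0 ∧
      MvPolynomial.eval b (frm u c j) = 0} : Set _) = (φ.ker : Set _) := by
    ext c
    rw [SetLike.mem_coe, AddMonoidHom.mem_ker]
    constructor
    · intro h
      exact Prod.ext (funext fun j => (h j).1) (funext fun j => (h j).2)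
    · intro h j
      exact ⟨congrFun (congrArg Prod.fst h) j, congrFun (congrArg Prod.snd h) j⟩
  have hc1 : Nat.card ((Σ j, T j) → ZMod p) = p ^ Fintype.card (Σ j, T j) := by
    rw [Nat.card_eq_fintype_card, Fintype.card_fun, ZMod.card]
  have hc2 : Nat.card ((Fin s → ZMod p) × (Fin s → ZMod p)) = p ^ (2 * s) := by
    rw [Nat.card_eq_fintype_card, Fintype.card_prod, Fintype.card_fun, ZMod.card,
      Fintype.card_fin, ← pow_add, two_mul]
  have hc3 := AddSubgroup.card_eq_card_quotient_mul_card_addSubgroup φ.ker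
  have hc4 : Nat.card (((Σ j, T j) → ZMod p) ⧸ φ.ker) =
      Nat.card ((Fin s → ZMod p) × (Fin s → ZMod p)) :=
    Nat.card_congr (QuotientAddGroup.quotientKerEquivOfSurjective φ hsurj).toEquiv
  rw [hc1, hc4, hc2] at hc3
  rw [hset, ← Nat.card_coe_set_eq]
  have : (p : ℝ) ^ Fintype.card (Σ j, T j) = (p : ℝ) ^ (2 * s) * (Nat.card φ.ker : ℝ) := by
    exact_mod_cast hc3
  rw [this]
  rfl

end Pool.Agent.K3h34.HP
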